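import Pool.Agent.Helper33.TY.PWord
import Pool.Agent.Helper91.TY.CRun

/-!
MP_8ee768_co, project TH-Y', stage S, z level: relabelling of the pair word.

The pair word has 2048 fields of 8 bits indexed by masks, so bit `i` of the mask is bit `i + 3` of
the index of a bit: exchanging two points is the exchange `cswap (i + 3) (j + 3)` of helper91.
`pw_swap`: one exchange; `pw_qrun`: a word of at most ten exchanges, the first digit is the point
which is moved to `10`.
-/

set_option autoImplicit false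
set_option exponentiation.threshold 20000

namespace Pool.Agent.Helper59.TY

open Finset
open Pool.Agent.Helper89.CV (OddCover ofMask)
open Pool.Agent.Helper97.CV Pool.Agent.Helper79.CV Pool.Agent.Helper33.CV
open Pool.Agent.Helper63.SIMD
open Pool.Agent.Helper25.TY (R11 mem_R11)
open Pool.Agent.Helper33.TY
open Pool.Agent.Helper91.TY (frc frc_eq ib cswap sidx dswap testBit_fld testBit_cswap sidx_testBit sidx_lt
  testBit_ib sidx_add testBit_dswap mk_mapS_swap)

/-! ## exchange of two points on a byte word -/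

theorem pow14 : (2 : ℕ) ^ 14 = 16384 := by norm_num

/-- bits of a byte word -/
theorem testBit_bw {g : Finset (Fin 13) → ℕ} (hg : ∀ s ⊆ R11, g s < 256) {m r : ℕ}
    (hm : m < 2048) (hr : r < 8) : (bw g).testBit (8 * m + r) = (g (ofMask m)).testBit r := by
  rw [← fld_bw hg hm, testBit_fld, decide_eq_true hr, Bool.true_and]

theorem testBit_bw_ge {g : Finset (Fin 13) → ℕ} (hg : ∀ s ⊆ R11, g s < 256) {t : ℕ}
    (ht : 16384 ≤ t) : (bw g).testBit t = false :=
  Nat.testBit_lt_two_pow (lt_of_lt_of_le (bw_lt hg) (Nat.pow_le_pow_right (by norm_num) ht))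

/-- exchange of index bits commutes with fields -/
theorem sidx_field (i j m r : ℕ) (hr : r < 8) :
    sidx (i + 3) (j + 3) (8 * m + r) = 8 * sidx i j m + r := by
  have e8 : (8 : ℕ) = 2 ^ 3 := by norm_num
  refine Nat.eq_of_testBit_eq fun k => ?_
  rw [sidx_testBit, e8, Nat.testBit_two_pow_mul_add _ (by rw [← e8]; exact hr),
    Nat.testBit_two_pow_mul_add _ (by rw [← e8]; exact hr),
    Nat.testBit_two_pow_mul_add _ (by rw [← e8]; exact hr),
    Nat.testBit_two_pow_mul_add _ (by rw [← e8]; exact hr), if_neg (by omega : ¬ j + 3 < 3),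
    if_neg (by omega : ¬ i + 3 < 3), Nat.add_sub_cancel, Nat.add_sub_cancel, sidx_testBit]
  by_cases hk : k < 3
  · rw [if_neg (by omega : ¬ k = i + 3), if_neg (by omega : ¬ k = j + 3), if_pos hk, if_pos hk]
  · rw [if_neg hk, if_neg hk]
    by_cases h1 : k = i + 3
    · rw [if_pos h1, if_pos (by omega : k - 3 = i)]
    · rw [if_neg h1, if_neg (by omega : ¬ k - 3 = i)]
      by_cases h2 : k = j + 3
      · rw [if_pos h2, if_pos (by omega : k - 3 = j)]
      · rw [if_neg h2, if_neg (by omega : ¬ k - 3 = j)]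

/-- above the word nothing happens -/
theorem testBit_cswap_ge {K i j : ℕ} (hij : i < j) (hK : 2 ^ (j + 1) ∣ K) {n : ℕ}
    (hn : K = 2 ^ n) (hj : j < n) {X : ℕ} (hX : X < 2 ^ K) {g : ℕ} (hg : K ≤ g) :
    (cswap i j (ib K i) (ib K j) X).testBit g = false := by
  have hKi : 2 ^ (i + 1) ∣ K := dvd_trans (pow_dvd_pow 2 (by omega)) hK
  have hp : 2 ^ i < 2 ^ j := Nat.pow_lt_pow_right (by norm_num) hij
  have hM : ∀ t, (Nat.land (ib K i) (Nat.xor (ib K i) (ib K j))).testBit t =
      (decide (t < K) && (t.testBit i && !t.testBit j)) := by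
    intro t
    have e : Nat.land (ib K i) (Nat.xor (ib K i) (ib K j)) =
      (ib K i) &&& ((ib K i) ^^^ (ib K j)) := rfl
    rw [e, Nat.testBit_and, Nat.testBit_xor, testBit_ib hKi, testBit_ib hK]
    cases decide (t < K) <;> cases t.testBit i <;> cases t.testBit j <;> rfl
  unfold cswap
  have hsub : Nat.sub (Nat.pow 2 j) (Nat.pow 2 i) = 2 ^ j - 2 ^ i := rfl
  rw [hsub, testBit_dswap]
  · rw [hM, decide_eq_false (by omega), Bool.false_and, if_neg Bool.false_ne_true, if_neg]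
    · exact Nat.testBit_lt_two_pow (lt_of_lt_of_le hX (Nat.pow_le_pow_right (by norm_num) hg))
    · rintro ⟨h1, h2⟩
      rw [hM, Bool.and_eq_true, Bool.and_eq_true, Bool.not_eq_true', decide_eq_true_eq] at h2
      have h3 := sidx_add hij h2.2.1 h2.2.2
      rw [Nat.sub_add_cancel h1] at h3
      have h4 : sidx i j (g - (2 ^ j - 2 ^ i)) < 2 ^ n :=
        sidx_lt (by omega) hj (by rw [← hn]; exact h2.1)
      omega
  · intro t ht
    rw [hM, Bool.and_eq_true, Bool.and_eq_true, Bool.not_eq_true'] at ht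
    have h3 : (t + (2 ^ j - 2 ^ i)).testBit i = false := by
      rw [sidx_add hij ht.2.1 ht.2.2, sidx_testBit, if_pos rfl, ht.2.2]
    rw [hM, h3]
    simp

/-- **exchange of two points on a byte word** -/
theorem cswap_bw {g : Finset (Fin 13) → ℕ} (hg : ∀ s ⊆ R11, g s < 256) {i j : Fin 13}
    (hij : i.val < j.val) (hj : j.val < 11) :
    cswap (i.val + 3) (j.val + 3) (ib 16384 (i.val + 3)) (ib 16384 (j.val + 3)) (bw g) =
      bw fun s => g (mapS (Equiv.swap i j) s) := by
  have hR : ∀ s ⊆ R11, mapS (Equiv.swap i j) s ⊆ R11 := by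
    intro s hs a ha
    rw [mem_mapS', Equiv.symm_swap] at ha
    have h1 := mem_R11.1 (hs ha)
    rw [mem_R11]
    by_cases hai : a = i
    · rw [hai]
      omega
    · by_cases haj : a = j
      · rw [haj]
        exact hj
      · rwa [Equiv.swap_apply_of_ne_of_ne hai haj] at h1
  have hg' : ∀ s ⊆ R11, (fun s => g (mapS (Equiv.swap i j) s)) s < 256 := fun s hs =>
    hg _ (hR s hs)
  have hdvd : 2 ^ (j.val + 3 + 1) ∣ 16384 := by
    rw [← pow14]
    exact pow_dvd_pow 2 (by omega)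
  refine Nat.eq_of_testBit_eq fun t => ?_
  by_cases ht : t < 16384
  · obtain ⟨m, r, hr, rfl⟩ : ∃ m r, r < 8 ∧ t = 8 * m + r :=
      ⟨t / 8, t % 8, Nat.mod_lt _ (by norm_num), (Nat.div_add_mod t 8).symm⟩
    have hm : m < 2048 := by omega
    have hm' : sidx i.val j.val m < 2048 := by
      have h1 : m < 2 ^ 11 := by
        norm_num
        exact hm
      have h2 := sidx_lt (n := 11) (i := i.val) (j := j.val) (by omega) hj h1
      norm_num at h2
      exact h2
    rw [testBit_cswap (by omega) hdvd _ _ ht, sidx_field _ _ _ _ hr, testBit_bw hg hm' hr,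
      testBit_bw hg' hm hr]
    show _ = (g (mapS (Equiv.swap i j) (ofMask m))).testBit r
    rw [← ofMask_mk (mapS (Equiv.swap i j) (ofMask m)), mk_mapS_swap,
      mk_ofMask (by omega : m < 2 ^ 13)]
  · rw [testBit_bw_ge hg' (by omega), testBit_cswap_ge (n := 14) (by omega) hdvd pow14.symm
      (by omega) (bw_lt hg) (by omega)]

/-! ## the fields of the pair word -/

theorem cnt_le_nine {B : Finset (Finset (Fin 13))} (hB : OddCover B) {q : Finset (Fin 13)}
    (hq : q.card = 4) : cnt B q ≤ 9 := by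
  have h1 : (B.filter fun b => q ⊆ b) ⊆ (qᶜ).image fun v => insert v q := by
    intro b hb
    rw [mem_filter] at hb
    have h5 := hB.1 b hb.1
    have h2 : (b \ q).card = 1 := by
      rw [card_sdiff_of_subset hb.2, h5, hq]
    obtain ⟨v, hv⟩ := card_eq_one.1 h2
    rw [mem_image]
    refine ⟨v, ?_, ?_⟩
    · have h3 : v ∈ b \ q := by
        rw [hv]
        exact mem_singleton_self v
      rw [mem_sdiff] at h3
      exact mem_compl.2 h3.2
    · have h4 := union_sdiff_of_subset hb.2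
      rw [hv] at h4
      rw [← h4, union_comm]
      rfl
  refine (card_le_card h1).trans (card_image_le.trans ?_)
  rw [card_compl, hq, Fintype.card_fin]

theorem ex_le_four {B : Finset (Finset (Fin 13))} (hB : OddCover B) {q : Finset (Fin 13)}
    (hq : q.card = 4) : ex B q ≤ 4 := by
  have h := cnt_le_nine hB hq
  unfold ex
  omega

theorem sum_ex_le {B : Finset (Finset (Fin 13))} (hB : OddCover B)
    {F : Finset (Finset (Fin 13))} (hF : F ⊆ quads) : ∑ q ∈ F, ex B q ≤ F.card * 4 := by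
  rw [← smul_eq_mul]
  refine sum_le_card_nsmul _ _ _ fun q hq => ex_le_four hB ?_
  exact mem_quads.1 (hF hq)

theorem card_quads_pair : ∀ u v : Fin 13, u ≠ v →
    (quads.filter fun q => {u, v} ⊆ q).card ≤ 55 := by
  intro u v huv
  have h1 : (quads.filter fun q => {u, v} ⊆ q) ⊆
      ((({u, v} : Finset (Fin 13))ᶜ).powersetCard 2).image fun t => {u, v} ∪ t := by
    intro q hq
    rw [mem_filter, mem_quads] at hq
    rw [mem_image]
    refine ⟨q \ {u, v}, ?_, union_sdiff_of_subset hq.2⟩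
    rw [mem_powersetCard]
    refine ⟨fun a ha => mem_compl.2 (mem_sdiff.1 ha).2, ?_⟩
    rw [card_sdiff_of_subset hq.2, hq.1, card_pair huv]
  refine (card_le_card h1).trans (card_image_le.trans ?_)
  rw [card_powersetCard, card_compl, card_pair huv, Fintype.card_fin]
  decide

theorem Lam_pair_le {B : Finset (Finset (Fin 13))} (hB : OddCover B) {u v : Fin 13}
    (huv : u ≠ v) : Lam B {u, v} ≤ 220 := by
  have h1 := sum_ex_le hB (F := quads.filter fun q => {u, v} ⊆ q) (filter_subset _ _)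
  have h2 := card_quads_pair u v huv
  unfold Lam LamW
  omega

theorem mm_le {B : Finset (Finset (Fin 13))} (hB : OddCover B) {u v : Fin 13} (huv : u ≠ v) :
    mm B u v ≤ 73 := by
  have h1 := Lam_pair_le hB huv
  unfold mm
  omega

/-- **the fields fit into bytes** -/
theorem qf_lt {B : Finset (Finset (Fin 13))} (hB : OddCover B) {f : Finset (Fin 13) → ℕ}
    (hf : ∀ s, f s ≤ 1) {s : Finset (Fin 13)} (hs : s ⊆ R11) : qf B f s < 256 := by
  unfold qf
  by_cases h4 : s.card = 4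
  · rw [if_pos h4]
    split_ifs <;> norm_num
  rw [if_neg h4]
  by_cases h3 : s.card = 3
  · rw [if_pos h3]
    split_ifs <;> norm_num
  rw [if_neg h3]
  by_cases h2 : s.card = 2
  · rw [if_pos h2]
    obtain ⟨u, v, huv, rfl⟩ := card_eq_two.1 h2
    have h5 : P1 B {u, v} ≤ Lam B {u, v} := by
      unfold P1 Lam LamW
      refine sum_le_sum_of_subset fun q hq => ?_
      rw [mem_filter] at hq ⊢
      exact ⟨hq.1, hq.2.1⟩
    have h6 := Lam_pair_le hB huv
    omega
  rw [if_neg h2]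
  by_cases h1 : s.card = 1
  · rw [if_pos h1]
    obtain ⟨u, rfl⟩ := card_eq_one.1 h1
    have h5 := mem_R11.1 (hs (mem_singleton_self u))
    have h12 : (12 : Fin 13) ≠ u := by
      rintro rfl
      exact absurd h5 (by decide)
    have h11 : (11 : Fin 13) ≠ u := by
      rintro rfl
      exact absurd h5 (by decide)
    have h6 := mm_le hB h12
    have h7 := mm_le hB h11
    have h8 := hf {u}
    rw [sum_singleton]
    omega
  · rw [if_neg h1]
    norm_num

/-! ## relabelling -/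

theorem P1_mapF {B : Finset (Finset (Fin 13))} {σ : Equiv.Perm (Fin 13)} (h12 : σ 12 = 12)
    (h11 : σ 11 = 11) (s : Finset (Fin 13)) : P1 (mapF σ B) (mapS σ s) = P1 B s := by
  unfold P1
  have hc : ∀ q : Finset (Fin 13), ((12 : Fin 13) ∈ mapS σ q ∨ (11 : Fin 13) ∈ mapS σ q) ↔
      (12 ∈ q ∨ 11 ∈ q) := by
    intro q
    have e1 : (12 : Fin 13) ∈ mapS σ q ↔ 12 ∈ q := by
      conv_lhs => rw [← h12]
      exact mem_mapS
    have e2 : (11 : Fin 13) ∈ mapS σ q ↔ 11 ∈ q := by
      conv_lhs => rw [← h11]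
      exact mem_mapS
    rw [e1, e2]
  refine (sum_bij (fun q _ => mapS σ q) ?_ ?_ ?_ ?_).symm
  · intro q hq
    rw [mem_filter, mem_quads] at hq ⊢
    rw [card_mapS, mapS_subset, hc]
    exact hq
  · intro a _ b _ hab
    exact mapS_injective σ hab
  · intro q hq
    rw [mem_filter, mem_quads] at hq
    refine ⟨mapS σ.symm q, ?_, mapS_mapS_symm σ q⟩
    rw [mem_filter, mem_quads, card_mapS]
    refine ⟨hq.1, ?_, ?_⟩
    · rw [← mapS_subset (σ := σ), mapS_mapS_symm]
      exact hq.2.1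
    · rw [← hc, mapS_mapS_symm]
      exact hq.2.2
  · intro q _
    exact (ex_mapF σ B q).symm

theorem ne_of_R11 {u : Fin 13} (hu : u ∈ R11) : (12 : Fin 13) ≠ u ∧ (11 : Fin 13) ≠ u := by
  have h := mem_R11.1 hu
  constructor
  · rintro rfl
    exact absurd h (by decide)
  · rintro rfl
    exact absurd h (by decide)

theorem mm_mapF12 {B : Finset (Finset (Fin 13))} (hB : OddCover B) {σ : Equiv.Perm (Fin 13)}
    {p : Fin 13} (hp : σ p = p) {u : Fin 13} (hu : p ≠ u) :
    mm (mapF σ B) p (σ u) = mm B p u := by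
  conv_lhs => rw [← hp]
  rw [hp]
  have h := mm_mapF hB σ hu
  rw [hp] at h
  exact h

theorem qf_mapF {B : Finset (Finset (Fin 13))} (hB : OddCover B) {σ : Equiv.Perm (Fin 13)}
    (h12 : σ 12 = 12) (h11 : σ 11 = 11) (f : Finset (Fin 13) → ℕ) {s : Finset (Fin 13)}
    (hs : s ⊆ R11) :
    qf (mapF σ B) (fun t => f (mapS σ.symm t)) (mapS σ s) = qf B f s := by
  have l12 : link (mapF σ B) 12 = mapF σ (link B 12) := by
    conv_lhs => rw [← h12]
    exact link_mapF σ B 12
  have l11 : link (mapF σ B) 11 = mapF σ (link B 11) := by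
    conv_lhs => rw [← h11]
    exact link_mapF σ B 11
  have l1211 : link (link (mapF σ B) 12) 11 = mapF σ (link (link B 12) 11) := by
    rw [l12]
    conv_lhs => rw [← h11]
    exact link_mapF σ _ 11
  have hsum : ∑ u ∈ mapS σ s, (mm (mapF σ B) 12 u + mm (mapF σ B) 11 u) =
      ∑ u ∈ s, (mm B 12 u + mm B 11 u) := by
    unfold mapS
    rw [sum_map]
    refine sum_congr rfl fun u hu => ?_
    have h := ne_of_R11 (hs hu)
    have e1 := mm_mapF12 hB h12 h.1
    have e2 := mm_mapF12 hB h11 h.2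
    exact congrArg₂ (· + ·) e1 e2
  unfold qf
  rw [card_mapS, l1211, l12, l11, P1_mapF h12 h11, hsum]
  simp only [mem_mapF, mapS_symm_mapS]

theorem mapS_R11 {σ : Equiv.Perm (Fin 13)} (h12 : σ 12 = 12) (h11 : σ 11 = 11)
    {s : Finset (Fin 13)} (hs : s ⊆ R11) : mapS σ s ⊆ R11 := by
  intro a ha
  rw [mem_mapS'] at ha
  have h1 := ne_of_R11 (hs ha)
  have h2 : a ≠ 12 := by
    rintro rfl
    exact h1.1 (by rw [eq_comm, Equiv.symm_apply_eq]; exact h12.symm)
  have h3 : a ≠ 11 := by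
    rintro rfl
    exact h1.2 (by rw [eq_comm, Equiv.symm_apply_eq]; exact h11.symm)
  have h4 : ∀ a : Fin 13, a ≠ 12 → a ≠ 11 → a.val < 11 := by decide
  exact mem_R11.2 (h4 a h2 h3)

theorem swap_fix {i j : Fin 13} (hi : i.val < 11) (hj : j.val < 11) :
    Equiv.swap i j 12 = 12 ∧ Equiv.swap i j 11 = 11 := by
  have h : ∀ a i : Fin 13, 11 ≤ a.val → i.val < 11 → a ≠ i := by
    intro a i h1 h2 h3
    rw [h3] at h1
    omega
  exact ⟨Equiv.swap_apply_of_ne_of_ne (h 12 i (by decide) hi) (h 12 j (by decide) hj),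
    Equiv.swap_apply_of_ne_of_ne (h 11 i (by decide) hi) (h 11 j (by decide) hj)⟩

theorem symm_fix {σ : Equiv.Perm (Fin 13)} {a : Fin 13} (h : σ a = a) : σ.symm a = a := by
  rw [Equiv.symm_apply_eq, h]

/-- **one exchange** -/
theorem pw_swap {B : Finset (Finset (Fin 13))} (hB : OddCover B) {Q : ℕ} (h : PW B Q)
    {i j : Fin 13} (hij : i.val < j.val) (hj : j.val < 11) :
    PW (mapF (Equiv.swap i j) B)
      (cswap (i.val + 3) (j.val + 3) (ib 16384 (i.val + 3)) (ib 16384 (j.val + 3)) Q) := by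
  unfold PW at h
  obtain ⟨f, hQ, hf, hM⟩ := h
  obtain ⟨h12, h11⟩ := swap_fix (i := i) (j := j) (by omega) hj
  have hs := Equiv.symm_swap i j
  refine ⟨fun s => f (mapS (Equiv.swap i j) s), ?_, fun s => hf _, ?_⟩
  · rw [hQ, cswap_bw (fun s hs => qf_lt hB hf hs) hij hj]
    refine bw_congr fun s hsR => ?_
    have h1 := qf_mapF hB h12 h11 f (mapS_R11 h12 h11 hsR)
    rw [hs] at h1
    have h2 := mapS_mapS_symm (Equiv.swap i j) s
    rw [hs] at h2
    rw [h2] at h1
    exact h1.symm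
  · intro u hu hfu
    have h1 : mapS (Equiv.swap i j) {u} = {Equiv.swap i j u} := mapS_singleton _ _
    simp only [h1] at hfu
    have h2 : (Equiv.swap i j u).val < 11 := by
      have h3 := mapS_R11 h12 h11 (s := {u}) (by
        rw [singleton_subset_iff]
        exact mem_R11.2 hu)
      rw [h1, singleton_subset_iff] at h3
      exact mem_R11.1 h3
    have h3 := hM _ h2 hfu
    have h4 := MM_mapF hB (Equiv.swap i j) (Equiv.swap i j u)
    have h5 : Equiv.swap i j (Equiv.swap i j u) = u := by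
      have h6 := Equiv.apply_symm_apply (Equiv.swap i j) u
      rw [hs] at h6
      exact h6
    rw [h5] at h4
    omega

/-! ## words of exchanges -/

/-- one digit: exchange of `s` and `k` if `s < k` -/
def exS (k s X : ℕ) : ℕ :=
  bif Nat.blt s k then
    cswap (Nat.add s 3) (Nat.add k 3) (ib 16384 (Nat.add s 3)) (ib 16384 (Nat.add k 3)) X
  else X

/-- digit `t` of the word in base 16 -/
def dig4 (w t : ℕ) : ℕ := Nat.land (Nat.shiftRight w (Nat.mul 4 t)) 15

/-- the first `n` digits of the word `w`: digit `t` is exchanged with `10 - t` -/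
noncomputable def exR (w n Q : ℕ) : ℕ :=
  @Nat.rec (fun _ => ℕ) Q (fun t ih => frc (fun s => exS (Nat.sub 10 t) s ih) (dig4 w t)) n

/-- the word of ten digits -/
noncomputable def exq (w Q : ℕ) : ℕ := exR w 10 Q

theorem exR_succ (w n Q : ℕ) : exR w (n + 1) Q = exS (10 - n) (dig4 w n) (exR w n Q) := by
  show frc (fun s => exS (Nat.sub 10 n) s (exR w n Q)) (dig4 w n) = _
  rw [frc_eq]
  rfl

theorem pw_exS {B : Finset (Finset (Fin 13))} (hB : OddCover B) {Q : ℕ} (h : PW B Q) {k : ℕ}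
    (hk : k < 11) (s : ℕ) : ∃ ρ : Equiv.Perm (Fin 13), ρ 12 = 12 ∧ ρ 11 = 11 ∧
      (∀ a : Fin 13, a.val = s → s ≤ k → (ρ a).val = k) ∧ (∀ a : Fin 13, k < a.val → ρ a = a) ∧
      PW (mapF ρ B) (exS k s Q) := by
  by_cases hs : s < k
  · have e : exS k s Q = cswap (s + 3) (k + 3) (ib 16384 (s + 3)) (ib 16384 (k + 3)) Q := by
      unfold exS
      have h1 : Nat.blt s k = true := by
        rw [Nat.blt_eq]
        exact hs
      rw [h1]
      rfl
    have h13 : s < 13 := by omega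
    have k13 : k < 13 := by omega
    obtain ⟨h12, h11⟩ := swap_fix (i := ⟨s, h13⟩) (j := ⟨k, k13⟩) (by
      show s < 11
      omega) hk
    refine ⟨Equiv.swap ⟨s, h13⟩ ⟨k, k13⟩, h12, h11, ?_, ?_, ?_⟩
    · intro a ha _
      have h1 : a = ⟨s, h13⟩ := Fin.ext ha
      rw [h1, Equiv.swap_apply_left]
    · intro a ha
      refine Equiv.swap_apply_of_ne_of_ne ?_ ?_
      · rintro rfl
        have h1 : k < s := ha
        omega
      · rintro rfl
        exact absurd ha (lt_irrefl _)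
    · rw [e]
      exact pw_swap hB h (i := ⟨s, h13⟩) (j := ⟨k, k13⟩) hs hk
  · have e : exS k s Q = Q := by
      unfold exS
      have h1 : Nat.blt s k = false := by
        rw [← Bool.not_eq_true, Nat.blt_eq]
        exact hs
      rw [h1]
      rfl
    refine ⟨1, rfl, rfl, ?_, fun a _ => rfl, ?_⟩
    · intro a ha hsk
      show a.val = k
      omega
    · rw [e, mapF_one]
      exact h

theorem dig4_zero (w : ℕ) : dig4 w 0 = w % 16 := by
  have e : dig4 w 0 = (w >>> (4 * 0)) &&& 15 := rfl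
  rw [e, Nat.mul_zero, Nat.shiftRight_zero, show (15 : ℕ) = 2 ^ 4 - 1 by norm_num,
    Nat.and_two_pow_sub_one_eq_mod]

theorem pw_exR {B : Finset (Finset (Fin 13))} (hB : OddCover B) {Q : ℕ} (h : PW B Q) (w : ℕ)
    {z : Fin 13} (hz : z.val < 11) (hw : z.val = w % 16) (n : ℕ) :
    ∃ ρ : Equiv.Perm (Fin 13), ρ 12 = 12 ∧ ρ 11 = 11 ∧ (n = 0 → ρ z = z) ∧
      (1 ≤ n → ρ z = 10) ∧ PW (mapF ρ B) (exR w n Q) := by
  induction n with
  | zero =>
    refine ⟨1, rfl, rfl, fun _ => rfl, fun h0 => absurd h0 (by omega), ?_⟩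
    rw [mapF_one]
    exact h
  | succ n ih =>
    obtain ⟨ρ, h12, h11, hρ0, hρ, hW⟩ := ih
    obtain ⟨τ, t12, t11, tz, tfix, hτ⟩ := pw_exS (oddCover_mapF hB ρ) hW (k := 10 - n) (by omega)
      (dig4 w n)
    refine ⟨τ * ρ, ?_, ?_, fun h0 => absurd h0 (by omega), fun _ => ?_, ?_⟩
    · rw [Equiv.Perm.mul_apply, h12, t12]
    · rw [Equiv.Perm.mul_apply, h11, t11]
    · rw [Equiv.Perm.mul_apply]
      by_cases hn : n = 0
      · subst hn
        rw [hρ0 rfl]
        apply Fin.ext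
        rw [tz z (by rw [dig4_zero, hw]) (by rw [dig4_zero]; omega)]
        rfl
      · rw [hρ (by omega)]
        refine tfix 10 ?_
        show 10 - n < 10
        omega
    · rw [mapF_mul, exR_succ]
      exact hτ

/-- **the word moves the point `w % 16` to `10`** -/
theorem pw_exq {B : Finset (Finset (Fin 13))} (hB : OddCover B) {Q : ℕ} (h : PW B Q) (w : ℕ)
    {z : Fin 13} (hz : z.val < 11) (hw : z.val = w % 16) :
    ∃ ρ : Equiv.Perm (Fin 13), ρ 12 = 12 ∧ ρ 11 = 11 ∧ ρ z = 10 ∧ PW (mapF ρ B) (exq w Q) := by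
  obtain ⟨ρ, h12, h11, -, h10, hW⟩ := pw_exR hB h w hz hw 10
  exact ⟨ρ, h12, h11, h10 (by norm_num), hW⟩

open Pool.Agent.Helper4.CV in
/-- the same in the context of stage S, in the form `SOK.ex_ok` of helper54 -/
theorem twoS_exq {a b : ℕ} (B : Finset (Finset (Fin 13))) (w Q : ℕ) (hC : TwoS B 12 11 a b)
    (hW : PW B Q) (z : Fin 13) (hz : z.val < 11) (hw : z.val = w % 16) :
    ∃ ρ : Equiv.Perm (Fin 13), ρ z = 10 ∧ TwoS (mapF ρ B) 12 11 a b ∧
      PW (mapF ρ B) (exq w Q) := by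
  obtain ⟨ρ, h12, h11, h10, hρ⟩ := pw_exq hC.best.odd hW w hz hw
  have h := twoS_map hC ρ
  rw [h12, h11] at h
  exact ⟨ρ, h10, h, hρ⟩

/-! ## the fast word -/

/-- shift of the exchange of `s < k` -/
def shf (k s : ℕ) : ℕ := Nat.sub (Nat.pow 2 (Nat.add k 3)) (Nat.pow 2 (Nat.add s 3))

/-- mask of the exchange of `s` and `k`, `0` if not `s < k` (a closed term in the kernel, cached) -/
def msk (k s : ℕ) : ℕ :=
  bif Nat.ble k s then 0 else
    Nat.land (ib 16384 (Nat.add s 3)) (Nat.xor (ib 16384 (Nat.add s 3)) (ib 16384 (Nat.add k 3)))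

/-- digit `0`: nothing, digit `s + 1`: exchange of `s` and `k` -/
noncomputable def stE (k w sh Q : ℕ) : ℕ :=
  @Nat.rec (fun _ => ℕ) Q (fun m _ => dswap (shf k m) (msk k m) Q)
    (Nat.land (Nat.shiftRight w sh) 15)

/-- the lowest digit `z`: exchange of `z` and `10` -/
noncomputable def stZ (w Q : ℕ) : ℕ :=
  @Nat.rec (fun _ => ℕ) (dswap (shf 10 0) (msk 10 0) Q)
    (fun m _ => dswap (shf 10 (Nat.succ m)) (msk 10 (Nat.succ m)) Q) (Nat.land w 15)

/-- THE WORD: lowest digit `z`, then for `k = 9, .., 1` a digit `0` or `s + 1` -/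
noncomputable def exw (w Q : ℕ) : ℕ :=
  stE 1 w 36 (stE 2 w 32 (stE 3 w 28 (stE 4 w 24 (stE 5 w 20 (stE 6 w 16 (stE 7 w 12
    (stE 8 w 8 (stE 9 w 4 (stZ w Q)))))))))

theorem dswap_msk {k s : ℕ} (hk : k < 11) (Q : ℕ) :
    dswap (shf k s) (msk k s) Q = exS k s Q := by
  by_cases h : s < k
  · have h1 : Nat.ble k s = false := by
      rw [← Bool.not_eq_true, Nat.ble_eq]
      omega
    have h2 : Nat.blt s k = true := by
      rw [Nat.blt_eq]
      exact h
    unfold msk exS
    rw [h1, h2]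
    rfl
  · have h1 : Nat.ble k s = true := by
      rw [Nat.ble_eq]
      omega
    have h2 : Nat.blt s k = false := by
      rw [← Bool.not_eq_true, Nat.blt_eq]
      exact h
    unfold msk exS
    rw [h1, h2]
    show dswap (shf k s) 0 Q = Q
    have e : ∀ s x, dswap s 0 x = x := by
      intro s x
      show (x ^^^ (((x >>> s) ^^^ x) &&& 0)) ^^^ ((((x >>> s) ^^^ x) &&& 0) <<< s) = x
      simp
    exact e _ _

theorem stZ_eq (w Q : ℕ) : stZ w Q = exS 10 (w % 16) Q := by
  have e : w % 16 = Nat.land w 15 := by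
    have e1 : Nat.land w 15 = w &&& 15 := rfl
    rw [e1, show (15 : ℕ) = 2 ^ 4 - 1 by norm_num, Nat.and_two_pow_sub_one_eq_mod]
  rw [e]
  unfold stZ
  cases Nat.land w 15 with
  | zero => exact dswap_msk (by norm_num) Q
  | succ m => exact dswap_msk (by norm_num) Q

theorem pw_stE {B : Finset (Finset (Fin 13))} (hB : OddCover B) {Q : ℕ} (h : PW B Q) {k : ℕ}
    (hk : k < 11) (w sh : ℕ) : ∃ ρ : Equiv.Perm (Fin 13), ρ 12 = 12 ∧ ρ 11 = 11 ∧
      (∀ a : Fin 13, k < a.val → ρ a = a) ∧ PW (mapF ρ B) (stE k w sh Q) := by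
  unfold stE
  cases Nat.land (Nat.shiftRight w sh) 15 with
  | zero =>
    refine ⟨1, rfl, rfl, fun a _ => rfl, ?_⟩
    rw [mapF_one]
    exact h
  | succ m =>
    obtain ⟨ρ, h12, h11, -, hf, hρ⟩ := pw_exS hB h hk m
    refine ⟨ρ, h12, h11, hf, ?_⟩
    show PW (mapF ρ B) (dswap (shf k m) (msk k m) Q)
    rw [dswap_msk hk]
    exact hρ

/-- composition with a step which fixes `10` -/
theorem pw_comp {B : Finset (Finset (Fin 13))} (hB : OddCover B) {z : Fin 13} {Q : ℕ}
    (h : ∃ ρ : Equiv.Perm (Fin 13), ρ 12 = 12 ∧ ρ 11 = 11 ∧ ρ z = 10 ∧ PW (mapF ρ B) Q) {k : ℕ}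
    (hk : k < 10) (w sh : ℕ) :
    ∃ ρ : Equiv.Perm (Fin 13), ρ 12 = 12 ∧ ρ 11 = 11 ∧ ρ z = 10 ∧
      PW (mapF ρ B) (stE k w sh Q) := by
  obtain ⟨ρ, h12, h11, h10, hW⟩ := h
  obtain ⟨τ, t12, t11, tf, hτ⟩ := pw_stE (oddCover_mapF hB ρ) hW (k := k) (by omega) w sh
  refine ⟨τ * ρ, ?_, ?_, ?_, ?_⟩
  · rw [Equiv.Perm.mul_apply, h12, t12]
  · rw [Equiv.Perm.mul_apply, h11, t11]
  · rw [Equiv.Perm.mul_apply, h10]
    exact tf 10 hk
  · rw [mapF_mul]
    exact hτ

/-- **the word moves the point `w % 16` to `10`** -/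
theorem pw_exw {B : Finset (Finset (Fin 13))} (hB : OddCover B) {Q : ℕ} (h : PW B Q) (w : ℕ)
    {z : Fin 13} (hz : z.val < 11) (hw : z.val = w % 16) :
    ∃ ρ : Equiv.Perm (Fin 13), ρ 12 = 12 ∧ ρ 11 = 11 ∧ ρ z = 10 ∧ PW (mapF ρ B) (exw w Q) := by
  have h0 : ∃ ρ : Equiv.Perm (Fin 13), ρ 12 = 12 ∧ ρ 11 = 11 ∧ ρ z = 10 ∧
      PW (mapF ρ B) (stZ w Q) := by
    obtain ⟨ρ, h12, h11, hz', -, hρ⟩ := pw_exS hB h (k := 10) (by norm_num) (w % 16)
    refine ⟨ρ, h12, h11, Fin.ext ?_, ?_⟩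
    · rw [hz' z hw (by omega)]
      rfl
    · rw [stZ_eq]
      exact hρ
  unfold exw
  exact pw_comp hB (pw_comp hB (pw_comp hB (pw_comp hB (pw_comp hB (pw_comp hB (pw_comp hB
    (pw_comp hB (pw_comp hB h0 (by norm_num) w 4) (by norm_num) w 8) (by norm_num) w 12)
    (by norm_num) w 16) (by norm_num) w 20) (by norm_num) w 24) (by norm_num) w 28)
    (by norm_num) w 32) (by norm_num) w 36

open Pool.Agent.Helper4.CV in
/-- the same in the context of stage S, in the form `SOK.ex_ok` of helper54 -/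
theorem twoS_exw {a b : ℕ} (B : Finset (Finset (Fin 13))) (w Q : ℕ) (hC : TwoS B 12 11 a b)
    (hW : PW B Q) (z : Fin 13) (hz : z.val < 11) (hw : z.val = w % 16) :
    ∃ ρ : Equiv.Perm (Fin 13), ρ z = 10 ∧ TwoS (mapF ρ B) 12 11 a b ∧
      PW (mapF ρ B) (exw w Q) := by
  obtain ⟨ρ, h12, h11, h10, hρ⟩ := pw_exw hC.best.odd hW w hz hw
  have h := twoS_map hC ρ
  rw [h12, h11] at h
  exact ⟨ρ, h10, h, hρ⟩

end Pool.Agent.Helper59.TY
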