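import Pool.Agent.Helper33.TY.PWord
import Pool.Agent.Helper54.TY.Glue
import Pool.Agent.Helper59.TY.QSwap

/-!
MP_8ee768_co, project TH-Y', stage S, z level: comparison of the known part of the link of the
point `10` with a glued type.

A type is stored as two 1-bit cube words of 1024 bits: `a` has the triples of the `12`-side and the
common pairs, `b` the triples of the `11`-side. `spd` spreads the bits of such a word to fields of
8 bits, `g8chk a b Q` compares with the upper half of the pair word. `gath a b` is the code of
helper54's `gcode`. `g8_sound`, `g8_sound'`: the two ways of placing the pair.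
-/

set_option autoImplicit false
set_option exponentiation.threshold 20000

namespace Pool.Agent.Helper59.TY

open Finset
open Pool.Agent.Helper89.CV (OddCover ofMask)
open Pool.Agent.Helper97.CV Pool.Agent.Helper79.CV Pool.Agent.Helper33.CV
open Pool.Agent.Helper63.SIMD
open Pool.Agent.Helper25.TY (R11 mem_R11)
open Pool.Agent.Helper33.TY
open Pool.Agent.Helper54.TY (gcode)
open Pool.Agent.Helper91.TY (testBit_fld testBit_mul_rep)

/-! ## spreading bits to fields -/

/-- one stage: blocks of `4 u` bits at distance `4 S` to blocks of `u` bits at distance `S` -/
def stg (S u M x : ℕ) : ℕ := (x * rep (S - u) 4) &&& ((2 ^ u - 1) * rep S (4 * M))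

theorem pk_one' {W : ℕ} (a : ℕ → ℕ) : pk W 1 a = a 0 := by
  rw [pk_succ, pk_zero, Nat.mul_zero, pow_zero, Nat.mul_one, Nat.zero_add]

theorem testBit_pk {W N : ℕ} (hW : 0 < W) {a : ℕ → ℕ} (ha : ∀ i < N, a i < 2 ^ W) (t : ℕ) :
    (pk W N a).testBit t = (decide (t < W * N) && (a (t / W)).testBit (t % W)) := by
  by_cases h : t < W * N
  · have h1 : t / W < N := Nat.div_lt_of_lt_mul h
    have h2 := congrArg (fun v => Nat.testBit v (t % W)) (fld_pk ha h1)
    simp only [testBit_fld] at h2
    rw [Nat.div_add_mod, decide_eq_true (Nat.mod_lt t hW), Bool.true_and] at h2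
    rw [h2, decide_eq_true h, Bool.true_and]
  · rw [decide_eq_false h, Bool.false_and]
    exact Nat.testBit_lt_two_pow (lt_of_lt_of_le (pk_lt ha)
      (Nat.pow_le_pow_right (by norm_num) (by omega)))

theorem stg_fld {S u M a : ℕ} (hu : 0 < u) (h : 5 * u ≤ S) :
    stg S u M (pk (4 * S) M (fld (4 * u) a)) = pk S (4 * M) (fld u a) := by
  have hS : 0 < S := by omega
  have hSu : 0 < S - u := by omega
  have hw : ∀ i, fld (4 * u) a i < 2 ^ (S - u) := fun i =>
    lt_of_lt_of_le fld_lt (Nat.pow_le_pow_right (by norm_num) (by omega))
  have hv : ∀ i, fld (4 * u) a i * rep (S - u) 4 < 2 ^ (4 * S) := by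
    intro i
    rw [mul_rep hSu]
    exact lt_of_lt_of_le (pk_lt fun _ _ => hw i) (Nat.pow_le_pow_right (by norm_num) (by omega))
  unfold stg
  rw [Nat.mul_comm, mul_pk]
  refine Nat.eq_of_testBit_eq fun t => ?_
  have hM : 2 ^ u - 1 < 2 ^ S := by
    have h1 : 2 ^ u ≤ 2 ^ S := Nat.pow_le_pow_right (by norm_num) (by omega)
    have h2 := Nat.two_pow_pos u
    omega
  rw [Nat.testBit_and, testBit_mul_rep hS hM, testBit_pk (by omega) (fun i _ => by
    rw [Nat.mul_comm]; exact hv i), testBit_pk hS (fun i _ => lt_of_lt_of_le fld_lt
      (Nat.pow_le_pow_right (by norm_num) (by omega))), Nat.testBit_two_pow_sub_one]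
  have e4 : 4 * S * M = S * (4 * M) := by ring
  rw [e4]
  by_cases ht : t < S * (4 * M)
  · rw [decide_eq_true ht, Bool.true_and, Bool.true_and, Bool.true_and]
    by_cases hr : t % S < u
    · rw [decide_eq_true hr, Bool.and_true, Nat.mul_comm, mul_rep hSu,
        testBit_pk hSu (fun _ _ => hw _), testBit_fld, testBit_fld, decide_eq_true hr,
        Bool.true_and]
      -- t = S * k + r, k = 4 i + j
      have hk : t / (4 * S) = t / S / 4 := by
        rw [Nat.mul_comm, Nat.div_div_eq_div_mul]
      have hmod : t % (4 * S) = S * (t / S % 4) + t % S := by
        rw [Nat.mul_comm 4 S, Nat.mod_mul]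
        ring
      have hj : t / S % 4 < 4 := Nat.mod_lt _ (by norm_num)
      generalize hjj : t / S % 4 = j at hj hmod
      generalize hii : t / S / 4 = i at hk
      have hts : t / S = 4 * i + j := by omega
      generalize hrr : t % S = r at hr hmod
      have e1 : t % (4 * S) = (S - u) * j + (u * j + r) := by
        rw [hmod]
        have : S * j = (S - u) * j + u * j := by
          rw [← Nat.add_mul]
          congr 1
          omega
        omega
      have hlt : u * j + r < S - u := by
        have : u * j ≤ u * 3 := Nat.mul_le_mul_left _ (by omega)
        omega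
      have e2 : t % (4 * S) % (S - u) = u * j + r := by
        rw [e1, Nat.mul_add_mod, Nat.mod_eq_of_lt hlt]
      have h4u : u * j + r < 4 * u := by
        have : u * j ≤ u * 3 := Nat.mul_le_mul_left _ (by omega)
        omega
      have h4 : t % (4 * S) < (S - u) * 4 := by
        rw [e1]
        have : (S - u) * j ≤ (S - u) * 3 := Nat.mul_le_mul_left _ (by omega)
        omega
      rw [decide_eq_true h4, Bool.true_and, e2, decide_eq_true h4u, Bool.true_and, hk, hts]
      congr 1
      ring
    · rw [decide_eq_false hr, Bool.and_false, testBit_fld, decide_eq_false hr, Bool.false_and]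
  · rw [decide_eq_false ht, Bool.false_and, Bool.false_and, Bool.false_and]

/-! constants of the five stages and of the layers -/

def sc1 : ℕ := 0x1000000000000000000000000000000000000000000000000000000000000000000000000000000000000000000000000000000000000000000000000000000000000000000000000000000000000000000000000000000000000000000000000000000000000000000000000000000000000000000000000000000000000000000000000000000000000000000000000000000000000000000000000000000000000000000000000000000000000000000000000000000000000000000000000000000000000000000000000000000000000000000000000000000000000000100000000000000000000000000000000000000000000000000000000000000000000000000000000000000000000000000000000000000000000000000000000000000000000000000000000000000000000000000000000000000000000000000000000000000000000000000000000000000000000000000000000000000000000000000000000000000000000000000000000000000000000000000000000000000000000000000000000000000000000000000000000000000000000000000000000000000000000000000000000000000000000000000000000000000010000000000000000000000000000000000000000000000000000000000000000000000000000000000000000000000000000000000000000000000000000000000000000000000000000000000000000000000000000000000000000000000000000000000000000000000000000000000000000000000000000000000000000000000000000000000000000000000000000000000000000000000000000000000000000000000000000000000000000000000000000000000000000000000000000000000000000000000000000000000000000000000000000000000000001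
def sm1 : ℕ := 0xffffffffffffffffffffffffffffffffffffffffffffffffffffffffffffffff0000000000000000000000000000000000000000000000000000000000000000000000000000000000000000000000000000000000000000000000000000000000000000000000000000000000000000000000000000000000000000000000000000000000000000000000000000000000000000000000000000000000000000000000000000000000000000000000000000000000000000000000000000000000000000000000000000000000000000000000000000000000000000000000000000000000000000000000000000000000000000000000000000000000000000ffffffffffffffffffffffffffffffffffffffffffffffffffffffffffffffff0000000000000000000000000000000000000000000000000000000000000000000000000000000000000000000000000000000000000000000000000000000000000000000000000000000000000000000000000000000000000000000000000000000000000000000000000000000000000000000000000000000000000000000000000000000000000000000000000000000000000000000000000000000000000000000000000000000000000000000000000000000000000000000000000000000000000000000000000000000000000000000000000000000000000000ffffffffffffffffffffffffffffffffffffffffffffffffffffffffffffffff0000000000000000000000000000000000000000000000000000000000000000000000000000000000000000000000000000000000000000000000000000000000000000000000000000000000000000000000000000000000000000000000000000000000000000000000000000000000000000000000000000000000000000000000000000000000000000000000000000000000000000000000000000000000000000000000000000000000000000000000000000000000000000000000000000000000000000000000000000000000000000000000000000000000000000ffffffffffffffffffffffffffffffffffffffffffffffffffffffffffffffff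
def sc2 : ℕ := 0x1000000000000000000000000000000000000000000000000000000000000000000000000000000000000000000000000000000000000000100000000000000000000000000000000000000000000000000000000000000000000000000000000000000000000000000000000000000010000000000000000000000000000000000000000000000000000000000000000000000000000000000000000000000000000000000000001
def sm2 : ℕ := 0xffffffffffffffff0000000000000000000000000000000000000000000000000000000000000000000000000000000000000000000000000000000000000000ffffffffffffffff0000000000000000000000000000000000000000000000000000000000000000000000000000000000000000000000000000000000000000ffffffffffffffff0000000000000000000000000000000000000000000000000000000000000000000000000000000000000000000000000000000000000000ffffffffffffffff0000000000000000000000000000000000000000000000000000000000000000000000000000000000000000000000000000000000000000ffffffffffffffff0000000000000000000000000000000000000000000000000000000000000000000000000000000000000000000000000000000000000000ffffffffffffffff0000000000000000000000000000000000000000000000000000000000000000000000000000000000000000000000000000000000000000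ffffffffffffffff0000000000000000000000000000000000000000000000000000000000000000000000000000000000000000000000000000000000000000ffffffffffffffff0000000000000000000000000000000000000000000000000000000000000000000000000000000000000000000000000000000000000000ffffffffffffffff0000000000000000000000000000000000000000000000000000000000000000000000000000000000000000000000000000000000000000ffffffffffffffff0000000000000000000000000000000000000000000000000000000000000000000000000000000000000000000000000000000000000000ffffffffffffffff0000000000000000000000000000000000000000000000000000000000000000000000000000000000000000000000000000000000000000ffffffffffffffff0000000000000000000000000000000000000000000000000000000000000000000000000000000000000000000000000000000000000000ffffffffffffffff0000000000000000000000000000000000000000000000000000000000000000000000000000000000000000000000000000000000000000ffffffffffffffff0000000000000000000000000000000000000000000000000000000000000000000000000000000000000000000000000000000000000000ffffffffffffffff0000000000000000000000000000000000000000000000000000000000000000000000000000000000000000000000000000000000000000ffffffffffffffff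
def sc3 : ℕ := 0x1000000000000000000000000000100000000000000000000000000010000000000000000000000000001
def sm3 : ℕ := 0xffff0000000000000000000000000000ffff0000000000000000000000000000ffff0000000000000000000000000000ffff0000000000000000000000000000ffff0000000000000000000000000000ffff0000000000000000000000000000ffff0000000000000000000000000000ffff0000000000000000000000000000ffff0000000000000000000000000000ffff0000000000000000000000000000ffff0000000000000000000000000000ffff0000000000000000000000000000ffff0000000000000000000000000000ffff0000000000000000000000000000ffff0000000000000000000000000000ffff0000000000000000000000000000ffff0000000000000000000000000000ffff0000000000000000000000000000ffff0000000000000000000000000000ffff0000000000000000000000000000ffff0000000000000000000000000000ffff0000000000000000000000000000ffff0000000000000000000000000000ffff0000000000000000000000000000ffff0000000000000000000000000000ffff0000000000000000000000000000ffff0000000000000000000000000000ffff0000000000000000000000000000ffff0000000000000000000000000000ffff0000000000000000000000000000ffff0000000000000000000000000000ffff000000000000000000000000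0000ffff0000000000000000000000000000ffff0000000000000000000000000000ffff0000000000000000000000000000ffff0000000000000000000000000000ffff0000000000000000000000000000ffff0000000000000000000000000000ffff0000000000000000000000000000ffff0000000000000000000000000000ffff0000000000000000000000000000ffff0000000000000000000000000000ffff0000000000000000000000000000ffff0000000000000000000000000000ffff0000000000000000000000000000ffff0000000000000000000000000000ffff0000000000000000000000000000ffff0000000000000000000000000000ffff0000000000000000000000000000ffff0000000000000000000000000000ffff0000000000000000000000000000ffff0000000000000000000000000000ffff0000000000000000000000000000ffff0000000000000000000000000000ffff0000000000000000000000000000ffff0000000000000000000000000000ffff0000000000000000000000000000ffff0000000000000000000000000000ffff0000000000000000000000000000ffff0000000000000000000000000000ffff0000000000000000000000000000ffff0000000000000000000000000000ffff0000000000000000000000000000ffff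
def sc4 : ℕ := 0x1000000100000010000001
def sm4 : ℕ := 0xf0000000f0000000f0000000f0000000f0000000f0000000f0000000f0000000f0000000f0000000f0000000f0000000f0000000f0000000f0000000f0000000f0000000f0000000f0000000f0000000f0000000f0000000f0000000f0000000f0000000f0000000f0000000f0000000f0000000f0000000f0000000f0000000f0000000f0000000f0000000f0000000f0000000f0000000f0000000f0000000f0000000f0000000f0000000f0000000f0000000f0000000f0000000f0000000f0000000f0000000f0000000f0000000f0000000f0000000f0000000f0000000f0000000f0000000f0000000f0000000f0000000f0000000f0000000f0000000f0000000f0000000f0000000f0000000f0000000f0000000f0000000f0000000f0000000f0000000f0000000f0000000f0000000f0000000f0000000f0000000f0000000f0000000f0000000f0000000f0000000f0000000f0000000f0000000f0000000f0000000f0000000f0000000f0000000f0000000f0000000f0000000f0000000f0000000f0000000f0000000f0000000f0000000f0000000f0000000f0000000f0000000f0000000f0000000f0000000f0000000f0000000f0000000f0000000f0000000f0000000f0000000f0000000f0000000f0000000f0000000f0000000f0000000f0000000f0000000f0000000f0000000f0000000f0000000f0000000f0000000f0000000f0000000f0000000f0000000f0000000f00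00000f0000000f0000000f0000000f0000000f0000000f0000000f0000000f0000000f0000000f0000000f0000000f0000000f0000000f0000000f0000000f0000000f0000000f0000000f0000000f0000000f0000000f0000000f0000000f0000000f0000000f0000000f0000000f0000000f0000000f0000000f0000000f0000000f0000000f0000000f0000000f0000000f0000000f0000000f0000000f0000000f0000000f0000000f0000000f0000000f0000000f0000000f0000000f0000000f0000000f0000000f0000000f0000000f0000000f0000000f0000000f0000000f0000000f0000000f0000000f0000000f0000000f0000000f0000000f0000000f0000000f0000000f0000000f0000000f0000000f0000000f0000000f0000000f0000000f0000000f0000000f0000000f0000000f0000000f0000000f0000000f0000000f0000000f0000000f0000000f0000000f0000000f0000000f0000000f0000000f0000000f0000000f0000000f0000000f0000000f0000000f0000000f0000000f0000000f0000000f0000000f0000000f0000000f0000000f0000000f0000000f0000000f0000000f0000000f0000000f0000000f0000000f0000000f0000000f0000000f0000000f0000000f0000000f0000000f0000000f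
def sc5 : ℕ := 0x204081
def sm5 : ℕ := 0x1010101010101010101010101010101010101010101010101010101010101010101010101010101010101010101010101010101010101010101010101010101010101010101010101010101010101010101010101010101010101010101010101010101010101010101010101010101010101010101010101010101010101010101010101010101010101010101010101010101010101010101010101010101010101010101010101010101010101010101010101010101010101010101010101010101010101010101010101010101010101010101010101010101010101010101010101010101010101010101010101010101010101010101010101010101010101010101010101010101010101010101010101010101010101010101010101010101010101010101010101010101010101010101010101010101010101010101010101010101010101010101010101010101010101010101010101010101010101010101010101010101010101010101010101010101010101010101010101010101010101010101010101010101010101010101010101010101010101010101010101010101010101010101010101010101010101010101010101010101010101010101010101010101010101010101010101010101010101010101010101010101010101010101010101010101010101010101010101010101010101010101010101010101010101010101010101010101010101010101010101010101010101010101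010101010101010101010101010101010101010101010101010101010101010101010101010101010101010101010101010101010101010101010101010101010101010101010101010101010101010101010101010101010101010101010101010101010101010101010101010101010101010101010101010101010101010101010101010101010101010101010101010101010101010101010101010101010101010101010101010101010101010101010101010101010101010101010101010101010101010101010101010101010101010101010101010101010101010101010101010101010101010101010101010101010101010101010101010101010101010101010101010101010101010101010101010101010101010101010101010101010101010101010101010101010101010101010101010101010101010101010101010101010101010101010101010101010101010101010101010101010101010101010101010101010101010101010101010101010101010101010101010101010101010101010101010101010101010101010101010101010101010101010101010101010101010101010101010101010101010101010101010101010101010101010101010101010101010101010101010101010101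
def p2 : ℕ := 0x1000000000000000000000000000000010000000000000001000000010001011600000000000000000000000000000001000000000000000100000001000101160000000000000001000000010001011600000001000101160001011601161668
def p3 : ℕ := 0x100000000000000010000000100010116000000000000000100000001000101160000000100010116000101160116166800000000000000010000000100010116000000010001011600010116011616680000000100010116000101160116166800010116011616680116166816686880
def M23 : ℕ := 0xff000000000000000000000000000000000000000000000000000000000000000000000000000000000000000000000000000000000000000000000000000000ff00000000000000000000000000000000000000000000000000000000000000ff000000000000000000000000000000ff00000000000000ff000000ff00ffffff000000000000000000000000000000000000000000000000000000000000000000000000000000000000000000000000000000000000000000000000000000ff00000000000000000000000000000000000000000000000000000000000000ff000000000000000000000000000000ff00000000000000ff000000ff00ffffff00000000000000000000000000000000000000000000000000000000000000ff000000000000000000000000000000ff00000000000000ff000000ff00ffffff00000000000000000000000000000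0ff00000000000000ff000000ff00ffffff00000000000000ff000000ff00ffffff000000ff00ffffff00ffffffffffff00000000000000000000000000000000000000000000000000000000000000000000000000000000000000000000000000000000000000000000000000000000ff00000000000000000000000000000000000000000000000000000000000000ff000000000000000000000000000000ff00000000000000ff000000ff00ffffff00000000000000000000000000000000000000000000000000000000000000ff000000000000000000000000000000ff00000000000000ff000000ff00ffffff000000000000000000000000000000ff00000000000000ff000000ff00ffffff00000000000000ff000000ff00ffffff000000ff00ffffff00ffffffffffff0000000000000000000000000000000000000000000000000000000000000000ff000000000000000000000000000000ff00000000000000ff000000ff00ffffff000000000000000000000000000000ff00000000000000ff000000ff00ffffff00000000000000ff000000ff00ffffff000000ff00ffffff00ffffffffffff00000000000000000000000000000000ff00000000000000ff000000ff00ffffff00000000000000ff000000ff00ffffff000000ff00ffffff00ffffffffffff0000000000000000ff000000ff00ffffff000000ff00ffffff00ffffffffffff00000000ff00ffffff00ffffffffffff0000ffffffffffff00ffffff00ff000000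

theorem sc1_eq : sc1 = rep 1792 4 := by decide +kernel
theorem sc2_eq : sc2 = rep 448 4 := by decide +kernel
theorem sc3_eq : sc3 = rep 112 4 := by decide +kernel
theorem sc4_eq : sc4 = rep 28 4 := by decide +kernel
theorem sc5_eq : sc5 = rep 7 4 := by decide +kernel
theorem sm1_eq : sm1 = (2 ^ 256 - 1) * rep 2048 4 := by decide +kernel
theorem sm2_eq : sm2 = (2 ^ 64 - 1) * rep 512 16 := by decide +kernel
theorem sm3_eq : sm3 = (2 ^ 16 - 1) * rep 128 64 := by decide +kernel
theorem sm4_eq : sm4 = (2 ^ 4 - 1) * rep 32 256 := by decide +kernel
theorem sm5_eq : sm5 = (2 ^ 1 - 1) * rep 8 1024 := by decide +kernel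
theorem p2_eq : p2 = layM 10 2 := by decide +kernel
theorem p3_eq : p3 = layM 10 3 := by decide +kernel
theorem M23_eq : M23 = lay8 255 10 2 + lay8 255 10 3 := by decide +kernel

/-- the bits of `a` in fields of 8 bits -/
def spd (a : ℕ) : ℕ :=
  Nat.land (Nat.mul (Nat.land (Nat.mul (Nat.land (Nat.mul (Nat.land (Nat.mul
    (Nat.land (Nat.mul a sc1) sm1) sc2) sm2) sc3) sm3) sc4) sm4) sc5) sm5

theorem spd_eq {a : ℕ} (ha : a < 2 ^ 1024) : spd a = pk 8 1024 (fld 1 a) := by
  have h0 : a = pk (4 * 2048) 1 (fld (4 * 256) a) := by
    rw [pk_one']
    unfold fld
    rw [Nat.mul_zero, pow_zero, Nat.div_one]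
    exact (Nat.mod_eq_of_lt ha).symm
  have h1 : Nat.land (Nat.mul a sc1) sm1 = pk (4 * 512) 4 (fld (4 * 64) a) := by
    have h := stg_fld (S := 2048) (u := 256) (M := 1) (a := a) (by norm_num) (by norm_num)
    rw [← h0] at h
    rw [sc1_eq, sm1_eq]
    exact h
  have h2 : Nat.land (Nat.mul (pk (4 * 512) 4 (fld (4 * 64) a)) sc2) sm2 =
      pk (4 * 128) 16 (fld (4 * 16) a) := by
    rw [sc2_eq, sm2_eq]
    exact stg_fld (S := 512) (u := 64) (M := 4) (a := a) (by norm_num) (by norm_num)
  have h3 : Nat.land (Nat.mul (pk (4 * 128) 16 (fld (4 * 16) a)) sc3) sm3 =
      pk (4 * 32) 64 (fld (4 * 4) a) := by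
    rw [sc3_eq, sm3_eq]
    exact stg_fld (S := 128) (u := 16) (M := 16) (a := a) (by norm_num) (by norm_num)
  have h4 : Nat.land (Nat.mul (pk (4 * 32) 64 (fld (4 * 4) a)) sc4) sm4 =
      pk (4 * 8) 256 (fld (4 * 1) a) := by
    rw [sc4_eq, sm4_eq]
    exact stg_fld (S := 32) (u := 4) (M := 64) (a := a) (by norm_num) (by norm_num)
  have h5 : Nat.land (Nat.mul (pk (4 * 8) 256 (fld (4 * 1) a)) sc5) sm5 =
      pk 8 1024 (fld 1 a) := by
    rw [sc5_eq, sm5_eq]
    exact stg_fld (S := 8) (u := 1) (M := 256) (a := a) (by norm_num) (by norm_num)
  unfold spd
  rw [h1, h2, h3, h4, h5]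

/-! ## the codes -/

/-- the bits of `c` at the places of the list -/
noncomputable def gat (c : ℕ) (l : List ℕ) : ℕ :=
  @List.rec ℕ (fun _ => ℕ) (nat_lit 0)
    (fun m _ ih => Nat.add (Nat.mul (nat_lit 2) ih) (Nat.land (Nat.shiftRight c m) (nat_lit 1))) l

theorem testBit_gat (c : ℕ) : ∀ (l : List ℕ) (i : ℕ),
    (gat c l).testBit i = (decide (i < l.length) && c.testBit (l.getD i 0))
  | [], i => by
    show (0 : ℕ).testBit i = _
    rw [Nat.zero_testBit]
    rfl
  | m :: l, i => by
    have e : gat c (m :: l) = 2 * gat c l + (c >>> m &&& 1) := rfl
    rw [e, Nat.and_one_is_mod]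
    have h1 : c >>> m % 2 < 2 := Nat.mod_lt _ (by norm_num)
    cases i with
    | zero =>
      have h0 : decide (0 < (m :: l).length) = true := by
        rw [decide_eq_true_eq, List.length_cons]
        omega
      rw [h0, Nat.testBit_zero, Bool.true_and]
      show _ = c.testBit m
      rw [Nat.mul_add_mod, Nat.mod_mod, Nat.testBit_eq_decide_div_mod_eq,
        Nat.shiftRight_eq_div_pow]
    | succ i =>
      rw [Nat.testBit_succ, show (2 * gat c l + c >>> m % 2) / 2 = gat c l by omega,
        testBit_gat c l i]
      congr 1
      rw [List.length_cons, decide_eq_decide]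
      omega

theorem enc_eq_gat {n k : ℕ} {D : Finset (Finset (Fin 13))} {c : ℕ}
    (h : ∀ m ∈ L n k, c.testBit m = decide (ofMask m ∈ D)) : enc n k D = gat c (L n k) := by
  refine Nat.eq_of_testBit_eq fun i => ?_
  rw [testBit_gat]
  by_cases hi : i < (L n k).length
  · have e : (L n k).getD i 0 = (L n k)[i] := by
      rw [List.getD_eq_getElem?_getD, List.getElem?_eq_getElem hi]
      rfl
    rw [testBit_enc _ hi, decide_eq_true hi, Bool.true_and, e, h _ (List.getElem_mem hi)]
  · rw [testBit_enc_ge _ (by omega), decide_eq_false hi, Bool.false_and]

/-- the triples and pairs of `{0, .., 9}` -/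
def l3 : List ℕ :=
  [nat_lit 7, nat_lit 11, nat_lit 13, nat_lit 14, nat_lit 19, nat_lit 21, nat_lit 22, nat_lit 25,
  nat_lit 26, nat_lit 28, nat_lit 35, nat_lit 37, nat_lit 38, nat_lit 41, nat_lit 42, nat_lit
  44, nat_lit 49, nat_lit 50, nat_lit 52, nat_lit 56, nat_lit 67, nat_lit 69, nat_lit 70,
  nat_lit 73, nat_lit 74, nat_lit 76, nat_lit 81, nat_lit 82, nat_lit 84, nat_lit 88, nat_lit
  97, nat_lit 98, nat_lit 100, nat_lit 104, nat_lit 112, nat_lit 131, nat_lit 133, nat_lit 134,
  nat_lit 137, nat_lit 138, nat_lit 140, nat_lit 145, nat_lit 146, nat_lit 148, nat_lit 152,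
  nat_lit 161, nat_lit 162, nat_lit 164, nat_lit 168, nat_lit 176, nat_lit 193, nat_lit 194,
  nat_lit 196, nat_lit 200, nat_lit 208, nat_lit 224, nat_lit 259, nat_lit 261, nat_lit 262,
  nat_lit 265, nat_lit 266, nat_lit 268, nat_lit 273, nat_lit 274, nat_lit 276, nat_lit 280,
  nat_lit 289, nat_lit 290, nat_lit 292, nat_lit 296, nat_lit 304, nat_lit 321, nat_lit 322,
  nat_lit 324, nat_lit 328, nat_lit 336, nat_lit 352, nat_lit 385, nat_lit 386, nat_lit 388,
  nat_lit 392, nat_lit 400, nat_lit 416, nat_lit 448, nat_lit 515, nat_lit 517, nat_lit 518,
  nat_lit 521, nat_lit 522, nat_lit 524, nat_lit 529, nat_lit 530, nat_lit 532, nat_lit 536,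
  nat_lit 545, nat_lit 546, nat_lit 548, nat_lit 552, nat_lit 560, nat_lit 577, nat_lit 578,
  nat_lit 580, nat_lit 584, nat_lit 592, nat_lit 608, nat_lit 641, nat_lit 642, nat_lit 644,
  nat_lit 648, nat_lit 656, nat_lit 672, nat_lit 704, nat_lit 769, nat_lit 770, nat_lit 772,
  nat_lit 776, nat_lit 784, nat_lit 800, nat_lit 832, nat_lit 896]

def l2 : List ℕ :=
  [nat_lit 3, nat_lit 5, nat_lit 6, nat_lit 9, nat_lit 10, nat_lit 12, nat_lit 17, nat_lit 18,
  nat_lit 20, nat_lit 24, nat_lit 33, nat_lit 34, nat_lit 36, nat_lit 40, nat_lit 48, nat_lit
  65, nat_lit 66, nat_lit 68, nat_lit 72, nat_lit 80, nat_lit 96, nat_lit 129, nat_lit 130,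
  nat_lit 132, nat_lit 136, nat_lit 144, nat_lit 160, nat_lit 192, nat_lit 257, nat_lit 258,
  nat_lit 260, nat_lit 264, nat_lit 272, nat_lit 288, nat_lit 320, nat_lit 384, nat_lit 513,
  nat_lit 514, nat_lit 516, nat_lit 520, nat_lit 528, nat_lit 544, nat_lit 576, nat_lit 640,
  nat_lit 768]

theorem l3_eq : l3 = L 10 3 := by decide +kernel
theorem l2_eq : l2 = L 10 2 := by decide +kernel

/-- the code of the type -/
noncomputable def gath (a b : ℕ) : ℕ := gat b l3 + 2 ^ 120 * (gat a l3 + 2 ^ 120 * gat a l2)

/-! ## the comparison -/

/-- the upper half of the pair word on the layers 2 and 3 of `{0, .., 9}` -/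
def g8chk (a b Q : ℕ) : Bool :=
  Nat.beq (Nat.land (Nat.shiftRight Q 8192) M23) (Nat.add (spd a) (Nat.mul 2 (spd b)))

/-- the two words for the other order of the pair -/
def swA (a b : ℕ) : ℕ := Nat.lor (Nat.land b p3) (Nat.land a p2)

def swB (a : ℕ) : ℕ := Nat.land a p3

theorem fld_one (a i : ℕ) : fld 1 a i = if a.testBit i then 1 else 0 := by
  unfold fld
  rw [Nat.one_mul, pow_one, Nat.testBit_eq_decide_div_mod_eq]
  have h := Nat.mod_lt (a / 2 ^ i) (show 0 < 2 by norm_num)
  by_cases h1 : a / 2 ^ i % 2 = 1
  · rw [h1]
    rfl
  · have h2 : a / 2 ^ i % 2 = 0 := by omega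
    rw [h2]
    rfl

/-- the fields of the comparison -/
theorem g8_fields {B : Finset (Finset (Fin 13))} (hB : OddCover B) {Q : ℕ} (hQ : PW B Q)
    {a b : ℕ} (ha : a < 2 ^ 1024) (hb : b < 2 ^ 1024) (h : g8chk a b Q = true) :
    ∃ f : Finset (Fin 13) → ℕ, ∀ m < 1024, ((ofMask m).card = 2 ∨ (ofMask m).card = 3) →
      qf B f (ofMask (m + 1024)) =
        (if a.testBit m then 1 else 0) + 2 * (if b.testBit m then 1 else 0) := by
  unfold PW at hQ
  obtain ⟨f, hQf, hf, -⟩ := hQ
  refine ⟨f, ?_⟩
  have hlt : ∀ m < 2048, qf B f (ofMask m) < 2 ^ 8 := by
    intro m hm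
    have h1 := qf_lt hB hf (ofMask_subset_R11 hm)
    exact h1
  have h1 : Nat.land (Nat.shiftRight Q 8192) M23 = Nat.add (spd a) (Nat.mul 2 (spd b)) :=
    Nat.eq_of_beq_eq_true h
  have hM : M23 = pk 8 1024 (fun m =>
      if (ofMask m).card = 2 ∨ (ofMask m).card = 3 then 255 else 0) := by
    rw [M23_eq, lay8_eq 255 (by norm_num), lay8_eq 255 (by norm_num), pk_add]
    refine pk_congr fun m _ => ?_
    by_cases h2 : (ofMask m).card = 2
    · rw [if_pos h2, if_neg (by omega), if_pos (Or.inl h2)]
    · by_cases h3 : (ofMask m).card = 3
      · rw [if_neg h2, if_pos h3, if_pos (Or.inr h3)]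
      · rw [if_neg h2, if_neg h3, if_neg (by omega)]
  have hS : Nat.shiftRight Q 8192 = pk 8 1024 (fun m => qf B f (ofMask (m + 1024))) := by
    have e : Nat.shiftRight Q 8192 = pk 8 (1024 + 1024) (fun m => qf B f (ofMask m)) >>>
        (8 * 1024) := by
      rw [hQf]
      rfl
    rw [e, pk_shiftRight _ (fun i hi => hlt i (by omega))]
  have hL : Nat.land (Nat.shiftRight Q 8192) M23 = pk 8 1024 (fun m =>
      if (ofMask m).card = 2 ∨ (ofMask m).card = 3 then qf B f (ofMask (m + 1024)) else 0) := by
    rw [hS, hM, show ∀ x y : ℕ, Nat.land x y = x &&& y from fun _ _ => rfl, pk_land (fun i hi => hlt _ (by omega)) (fun i _ => by split_ifs <;> norm_num)]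
    refine pk_congr fun m hm => ?_
    split_ifs with h3
    · exact land_255 (hlt _ (by omega))
    · exact Nat.and_zero _
  have hR : Nat.add (spd a) (Nat.mul 2 (spd b)) =
      pk 8 1024 (fun m => fld 1 a m + 2 * fld 1 b m) := by
    show spd a + 2 * spd b = _
    rw [spd_eq ha, spd_eq hb, mul_pk, pk_add]
  rw [hL, hR, pk_inj] at h1
  · intro m hm hc
    have h2 := h1 m hm
    simp only [if_pos hc, fld_one] at h2
    exact h2
  · intro m hm
    split_ifs
    · exact hlt _ (by omega)
    · norm_num
  · intro m _
    have e1 := fld_lt (W := 1) (A := a) (i := m)
    have e2 := fld_lt (W := 1) (A := b) (i := m)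
    norm_num at e1 e2 ⊢
    omega

theorem ofMask_add_ten {m : ℕ} (hm : m < 1024) :
    ofMask (m + 1024) = insert 10 (ofMask m) ∧ (10 : Fin 13) ∉ ofMask m ∧
      (11 : Fin 13) ∉ ofMask m ∧ (12 : Fin 13) ∉ ofMask m := by
  have h := ofMask_add (m := m) (10 : Fin 13) (by
    show m < 2 ^ 10
    norm_num
    exact hm)
  have e : (2 : ℕ) ^ (10 : Fin 13).val = 1024 := by decide
  rw [e] at h
  refine ⟨h, ?_, ?_, ?_⟩
  · rw [mem_ofMask]
    rw [Nat.testBit_lt_two_pow (lt_of_lt_of_le hm (by decide))]
    exact Bool.false_ne_true
  · rw [mem_ofMask]
    rw [Nat.testBit_lt_two_pow (lt_of_lt_of_le hm (by decide))]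
    exact Bool.false_ne_true
  · rw [mem_ofMask]
    rw [Nat.testBit_lt_two_pow (lt_of_lt_of_le hm (by decide))]
    exact Bool.false_ne_true

/-- membership in iterated links from the fields -/
theorem g8_bits {B : Finset (Finset (Fin 13))} (hB : OddCover B) {Q : ℕ} (hQ : PW B Q)
    {a b : ℕ} (ha : a < 2 ^ 1024) (hb : b < 2 ^ 1024) (h : g8chk a b Q = true) :
    (∀ m ∈ L 10 3, a.testBit m = decide (ofMask m ∈ link (link B 10) 12)) ∧
    (∀ m ∈ L 10 3, b.testBit m = decide (ofMask m ∈ link (link B 10) 11)) ∧
    (∀ m ∈ L 10 2, a.testBit m = decide (ofMask m ∈ link (link (link B 10) 12) 11)) := by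
  obtain ⟨f, hf⟩ := g8_fields hB hQ ha hb h
  have h4 : ∀ m ∈ L 10 3, (a.testBit m = decide (ofMask m ∈ link (link B 10) 12)) ∧
      (b.testBit m = decide (ofMask m ∈ link (link B 10) 11)) := by
    intro m hm
    rw [mem_L (by norm_num)] at hm
    have hm1 : m < 1024 := hm.1
    obtain ⟨e, n10, n11, n12⟩ := ofMask_add_ten hm1
    have h1 := hf m hm1 (Or.inr hm.2)
    rw [e] at h1
    have hc : (insert 10 (ofMask m)).card = 4 := by
      rw [card_insert_of_notMem n10, hm.2]
    unfold qf at h1
    rw [if_pos hc] at h1
    have e12 : insert 10 (ofMask m) ∈ link B 12 ↔ ofMask m ∈ link (link B 10) 12 := by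
      rw [link_comm B 10 12, mem_link (B := link B 12)]
      exact ⟨fun h => ⟨n10, h⟩, fun h => h.2⟩
    have e11 : insert 10 (ofMask m) ∈ link B 11 ↔ ofMask m ∈ link (link B 10) 11 := by
      rw [link_comm B 10 11, mem_link (B := link B 11)]
      exact ⟨fun h => ⟨n10, h⟩, fun h => h.2⟩
    constructor
    · rw [Bool.eq_iff_iff, decide_eq_true_eq, ← e12]
      by_cases c1 : insert 10 (ofMask m) ∈ link B 12 <;>
        by_cases c2 : insert 10 (ofMask m) ∈ link B 11 <;>
          by_cases c3 : a.testBit m = true <;> by_cases c4 : b.testBit m = true <;>
            simp [c1, c2, c3, c4] at h1 ⊢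
    · rw [Bool.eq_iff_iff, decide_eq_true_eq, ← e11]
      by_cases c1 : insert 10 (ofMask m) ∈ link B 12 <;>
        by_cases c2 : insert 10 (ofMask m) ∈ link B 11 <;>
          by_cases c3 : a.testBit m = true <;> by_cases c4 : b.testBit m = true <;>
            simp [c1, c2, c3, c4] at h1 ⊢
  have h3 : ∀ m ∈ L 10 2, a.testBit m =
      decide (ofMask m ∈ link (link (link B 10) 12) 11) := by
    intro m hm
    rw [mem_L (by norm_num)] at hm
    have hm1 : m < 1024 := hm.1
    obtain ⟨e, n10, n11, n12⟩ := ofMask_add_ten hm1
    have h1 := hf m hm1 (Or.inl hm.2)
    rw [e] at h1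
    have hc : (insert 10 (ofMask m)).card = 3 := by
      rw [card_insert_of_notMem n10, hm.2]
    unfold qf at h1
    rw [if_neg (by omega), if_pos hc] at h1
    have e12 : insert 10 (ofMask m) ∈ link (link B 12) 11 ↔
        ofMask m ∈ link (link (link B 10) 12) 11 := by
      rw [link_comm B 10 12, link_comm (link B 12) 10 11, mem_link (B := link (link B 12) 11)]
      exact ⟨fun h => ⟨n10, h⟩, fun h => h.2⟩
    rw [Bool.eq_iff_iff, decide_eq_true_eq, ← e12]
    by_cases c1 : insert 10 (ofMask m) ∈ link (link B 12) 11 <;>
      by_cases c3 : a.testBit m = true <;> by_cases c4 : b.testBit m = true <;>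
        simp [c1, c3, c4] at h1 ⊢
  exact ⟨fun m hm => (h4 m hm).1, fun m hm => (h4 m hm).2, h3⟩

/-- **the pair `12, 11` in this order** -/
theorem g8_sound {B : Finset (Finset (Fin 13))} (hB : OddCover B) {Q : ℕ} (hQ : PW B Q)
    {a b : ℕ} (ha : a < 2 ^ 1024) (hb : b < 2 ^ 1024) (h : g8chk a b Q = true) :
    gcode B 12 11 = gath a b := by
  obtain ⟨h1, h2, h3⟩ := g8_bits hB hQ ha hb h
  unfold gcode gath
  rw [enc_eq_gat h2, enc_eq_gat h1, enc_eq_gat h3, l3_eq, l2_eq]

theorem swA_lt {a b : ℕ} (ha : a < 2 ^ 1024) (hb : b < 2 ^ 1024) : swA a b < 2 ^ 1024 :=
  Nat.or_lt_two_pow (lt_of_le_of_lt Nat.and_le_left hb) (lt_of_le_of_lt Nat.and_le_left ha)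

theorem swB_lt {a : ℕ} (ha : a < 2 ^ 1024) : swB a < 2 ^ 1024 :=
  lt_of_le_of_lt Nat.and_le_left ha

theorem not_both {m : ℕ} (h2 : m ∈ L 10 2) (h3 : m ∈ L 10 3) : False := by
  rw [mem_L (by norm_num)] at h2 h3
  omega

/-- **the pair in the other order** -/
theorem g8_sound' {B : Finset (Finset (Fin 13))} (hB : OddCover B) {Q : ℕ} (hQ : PW B Q)
    {a b : ℕ} (ha : a < 2 ^ 1024) (hb : b < 2 ^ 1024)
    (h : g8chk (swA a b) (swB a) Q = true) : gcode B 11 12 = gath a b := by
  obtain ⟨h1, h2, h3⟩ := g8_bits hB hQ (swA_lt ha hb) (swB_lt ha) h
  have eA3 : ∀ m ∈ L 10 3, (swA a b).testBit m = b.testBit m := by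
    intro m hm
    have e : swA a b = (b &&& p3) ||| (a &&& p2) := rfl
    rw [e, Nat.testBit_or, Nat.testBit_and, Nat.testBit_and, p2_eq, p3_eq, testBit_layM,
      testBit_layM, decide_eq_true hm, decide_eq_false (fun h => not_both h hm), Bool.and_true,
      Bool.and_false, Bool.or_false]
  have eA2 : ∀ m ∈ L 10 2, (swA a b).testBit m = a.testBit m := by
    intro m hm
    have e : swA a b = (b &&& p3) ||| (a &&& p2) := rfl
    rw [e, Nat.testBit_or, Nat.testBit_and, Nat.testBit_and, p2_eq, p3_eq, testBit_layM,
      testBit_layM, decide_eq_true hm, decide_eq_false (fun h => not_both hm h), Bool.and_true,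
      Bool.and_false, Bool.false_or]
  have eB3 : ∀ m ∈ L 10 3, (swB a).testBit m = a.testBit m := by
    intro m hm
    have e : swB a = a &&& p3 := rfl
    rw [e, Nat.testBit_and, p3_eq, testBit_layM, decide_eq_true hm, Bool.and_true]
  unfold gcode gath
  rw [enc_eq_gat (c := b) (fun m hm => by rw [← eA3 m hm]; exact h1 m hm),
    enc_eq_gat (c := a) (fun m hm => by rw [← eB3 m hm]; exact h2 m hm),
    enc_eq_gat (c := a) (fun m hm => by
      rw [← eA2 m hm, link_comm (link B 10) 11 12]
      exact h3 m hm), l3_eq, l2_eq]

/-! ## with a table -/

/-- the two words of a leaf `a + 2 ^ 1024 * b` -/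
def tA (l : ℕ) : ℕ := Nat.land l (Nat.sub (Nat.pow 2 1024) 1)

def tB (l : ℕ) : ℕ := Nat.land (Nat.shiftRight l 1024) (Nat.sub (Nat.pow 2 1024) 1)

theorem land1024 (l : ℕ) : Nat.land l (Nat.sub (Nat.pow 2 1024) 1) < 2 ^ 1024 := by
  have e : Nat.land l (Nat.sub (Nat.pow 2 1024) 1) = l &&& (2 ^ 1024 - 1) := rfl
  rw [e, Nat.and_two_pow_sub_one_eq_mod]
  exact Nat.mod_lt _ (Nat.two_pow_pos _)

theorem tA_lt (l : ℕ) : tA l < 2 ^ 1024 := land1024 _

theorem tB_lt (l : ℕ) : tB l < 2 ^ 1024 := land1024 _

/-- THE COMPARISON of the pair word with the type `t` (leaf `l`), `sw = 0`: pair `12, 11`,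
otherwise `11, 12` -/
def tyL (l sw Q : ℕ) : Bool :=
  bif Nat.beq sw 0 then g8chk (tA l) (tB l) Q
  else g8chk (swA (tA l) (tB l)) (swB (tA l)) Q

/-- the operation `ty` of helper54's `ZOps` for a table `T` of leaves -/
def tyC (T : ℕ → ℕ) (NT t sw Q : ℕ) : Bool := Nat.ble (Nat.succ t) NT && tyL (T t) sw Q

theorem tyL_sound {B : Finset (Finset (Fin 13))} (hB : OddCover B) {Q : ℕ} (hQ : PW B Q)
    {l sw : ℕ} (h : tyL l sw Q = true) :
    gcode B 12 11 = gath (tA l) (tB l) ∨ gcode B 11 12 = gath (tA l) (tB l) := by
  unfold tyL at h
  cases h0 : Nat.beq sw 0 with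
  | true =>
    rw [h0, cond_true] at h
    exact Or.inl (g8_sound hB hQ (tA_lt l) (tB_lt l) h)
  | false =>
    rw [h0, cond_false] at h
    exact Or.inr (g8_sound' hB hQ (tA_lt l) (tB_lt l) h)

/-- the table of leaves belongs to the codes `G t`: kernel check for `t0 ≤ t < t0 + n` -/
noncomputable def tieR (T G : ℕ → ℕ) (t0 : ℕ) : ℕ → Bool
  | 0 => true
  | n + 1 => tieR T G t0 n &&
    Nat.beq (gath (tA (T (Nat.add t0 n))) (tB (T (Nat.add t0 n)))) (G (Nat.add t0 n))

theorem tieR_sound {T G : ℕ → ℕ} {t0 : ℕ} : ∀ {n : ℕ}, tieR T G t0 n = true →
    ∀ t, t0 ≤ t → t < t0 + n → gath (tA (T t)) (tB (T t)) = G t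
  | 0, _, t, h1, h2 => absurd h2 (by omega)
  | n + 1, h, t, h1, h2 => by
    have h' : (tieR T G t0 n &&
      Nat.beq (gath (tA (T (t0 + n))) (tB (T (t0 + n)))) (G (t0 + n))) = true := h
    rw [Bool.and_eq_true] at h'
    by_cases h3 : t = t0 + n
    · rw [h3]
      exact Nat.eq_of_beq_eq_true h'.2
    · exact tieR_sound h'.1 t h1 (by omega)

theorem tyC_sound {B : Finset (Finset (Fin 13))} (hB : OddCover B) {Q : ℕ} (hQ : PW B Q)
    {T G : ℕ → ℕ} {NT t sw : ℕ} (hT : ∀ t < NT, gath (tA (T t)) (tB (T t)) = G t)
    (h : tyC T NT t sw Q = true) :
    t < NT ∧ (gcode B 12 11 = G t ∨ gcode B 11 12 = G t) := by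
  unfold tyC at h
  rw [Bool.and_eq_true, Nat.ble_eq] at h
  have ht : t < NT := h.1
  refine ⟨ht, ?_⟩
  rw [← hT t ht]
  exact tyL_sound hB hQ h.2

end Pool.Agent.Helper59.TY
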